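import Pool.Agent.TH563.CU.ValX

/-!
# The complexified volume conjecture along odd integers for arborescent links

The definitions are in `Pool.Agent.TH563.UV.Arb` (weighted planar trees with crossing circles, the
coloured Jones polynomial of the arborescent link of a tree from the R-matrix of `U_q(sl_2)`, angle
structures of its complement and their volume), `Pool.Agent.TH563.UV.ArbD` (`Tree.circles`),
`Pool.Agent.TH563.Z.ArbXD` (`Tree.kids`), `Pool.Agent.TH563.V.ArbV` (`Hub`, `Fine`),
`Pool.Agent.TH563.CV.Dil` (the dilogarithm), `Pool.Agent.TH563.CV.Flat` (flattenings, the extended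
Rogers dilogarithm, and Neumann's sum for the complex volume) and `Pool.Agent.TH563.CV.CS`
(`HasCS`).
-/

set_option autoImplicit false

namespace Pool.Agent.Results.MP_b30479_gt.ArborescentOddComplexVolume

open Finset Filter Topology Pool.Agent.TH563.UV.Arb Pool.Agent.TH563.V.Arb Pool.Agent.TH563.CV

/-- The filter of the odd integers tending to infinity. -/
def oddTop : Filter ℕ := atTop ⊓ 𝓟 {n | Odd n}

/-- **The complexified volume conjecture along the odd integers for arborescent links.**  There is
an absolute constant `K` such that the following holds for every weighted planar tree with at least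
one edge (any number of vertices, any valences, arbitrary signs of the weights), some vertices of
which have a crossing circle (an unknotted component of the link around the band of the vertex), if
every vertex is large, that is it has a crossing circle or `K² ≤ m² + a²` for `m` neighbours and
weight `a`, or is a hub, that is it has weight `0`, no crossing circle and `m ≥ 3` neighbours; and if
of two neighbouring vertices at least one is large:
(1) for every `n` the coloured Jones polynomial is continuous at `v_n`, so that `kashaev e f t n`
is its value at `q = e^(2 π i / n)` in the usual sense;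
(2) the volume functional has a maximum `V` over the angle structures (by Casson, Rivin, Hodgson
and Thurston the hyperbolic volume of the link complement), and there is, modulo `π²`, exactly one
real number `C` with `HasCS t V C`, that is, such that modulo `π²`, `i (V + i C)` is the sum of the
extended Rogers dilogarithms over the ideal tetrahedra of the complement, with the shapes of an
angle structure of volume `V`, with a flattening and with an order of the vertices; the sum has
this value for all these structures, flattenings and orders (by Neumann's theorem `C` is the Chern-Simons invariant of the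
complement; see `Pool.Agent.TH563.CV.Flat` for the conditions at the cusps);
(3) for all integers `e`, `f` (framing and sign), with `a_n = kashaev e f t n`: `a_n ≠ 0` for all large
odd `n`, `2 π log |a_n| / n` tends to `V` along odd `n`, and `a_{n+2} / a_n` tends to
`exp ((V + i C) / π)` along odd `n` for a representative `C` of the Chern-Simons invariant
(`HasCS t V C`);
(4) if the tree is the double of a tree `s` (then the link is amphichiral), this holds with `C = 0`
for the framing `e` and the sign `f` for which `a_n` is nonnegative for all `n ≥ 2`;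
(5) if the weight of the root is `0` and its children are, up to their order, the mirror images of
its children (then the link is a mutant of its mirror image, and amphichiral if the order is
suitable), this holds with `C = 0` for a suitable framing and sign, and then `a_n` is real for all
`n ≥ 2`. -/
theorem result : ∃ K : ℕ, ∀ t : Tree, Fine K t → 1 ≤ t.children →
    (∀ n : ℕ, ContinuousAt (jones t n) (root n)) ∧
    ∃ V C₀ : ℝ, IsGreatest {W : ℝ | ∃ y : AngleTree, y.tree = t ∧ IsAngle y ∧ vol y = W} V ∧
      (∀ C : ℝ, HasCS t V C ↔ ∃ k : ℤ, C = C₀ + k * Real.pi ^ 2) ∧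
      (∀ x : FlatTree, x.angles.tree = t → IsAngle x.angles → vol x.angles = V → x.IsFlat →
        ∃ k : ℤ, x.complexVolume = Complex.I * (V + Complex.I * C₀) + k * (Real.pi : ℂ) ^ 2) ∧
      (∀ e f : ℤ, (∀ᶠ n : ℕ in oddTop, kashaev e f t n ≠ 0) ∧
        Tendsto (fun n : ℕ => 2 * Real.pi / n * Real.log ‖kashaev e f t n‖) oddTop (𝓝 V) ∧
        ∃ C : ℝ, HasCS t V C ∧
          Tendsto (fun n : ℕ => kashaev e f t (n + 2) / kashaev e f t n) oddTop
            (𝓝 (Complex.exp ((V + Complex.I * C) / Real.pi)))) ∧
      (∀ s : Tree, t = s.double → HasCS t V 0 ∧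
        (∀ n : ℕ, 2 ≤ n → ∃ r : ℝ, 0 ≤ r ∧ kashaev (4 * s.circles) 1 t n = r) ∧
        Tendsto (fun n : ℕ => kashaev (4 * s.circles) 1 t (n + 2) /
          kashaev (4 * s.circles) 1 t n) oddTop (𝓝 (Complex.exp (V / Real.pi)))) ∧
      (t.weight = 0 → (t.kids.map Tree.mirror).Perm t.kids → HasCS t V 0 ∧ ∃ f : ℤ,
        (∀ n : ℕ, 2 ≤ n → ∃ r : ℝ, kashaev (2 * t.circles) f t n = r) ∧
        Tendsto (fun n : ℕ => kashaev (2 * t.circles) f t (n + 2) /
          kashaev (2 * t.circles) f t n) oddTop (𝓝 (Complex.exp (V / Real.pi)))) := by
  obtain ⟨K, hK⟩ := Pool.Agent.TH563.CU.mainX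
  refine ⟨K, fun t ht hs => ?_⟩
  obtain ⟨h1, V, C₀, h2, hC₀, hX, h3, h4, h5⟩ := hK t ht hs
  have hodd : oddTop ≤ atTop := inf_le_left
  have hpi : (Real.pi : ℂ) ≠ 0 := by exact_mod_cast Real.pi_ne_zero
  have e0 : (V : ℂ) / Real.pi = 2 * ((V / (2 * Real.pi) : ℝ) : ℂ) := by
    push_cast
    field_simp
  refine ⟨h1, V, C₀, h2, hC₀, hX, fun e f => ?_, fun s hst => ?_, fun hw hp => ?_⟩
  · obtain ⟨C, y, hC, hy, h⟩ := h3 e f
    obtain ⟨r1, _, r3, r4, _⟩ := Pool.Agent.W460.AX.rat _ _ y hy h
    refine ⟨hodd r1, ?_, C, hC, ?_⟩
    · have e1 : 2 * Real.pi * (((V : ℂ) + Complex.I * C) / (2 * Real.pi)).re = V := by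
        have e2 : ((V : ℂ) + Complex.I * C) / (2 * Real.pi) =
            ((V / (2 * Real.pi) : ℝ) : ℂ) + ((C / (2 * Real.pi) : ℝ) : ℂ) * Complex.I := by
          push_cast
          ring
        rw [e2, Complex.add_re, Complex.re_ofReal_mul, Complex.I_re, mul_zero, add_zero,
          Complex.ofReal_re]
        field_simp
      rw [e1] at r4
      refine (r4.mono_left hodd).congr fun n => ?_
      ring
    · have e1 : ((V : ℂ) + Complex.I * C) / Real.pi =
          2 * (((V : ℂ) + Complex.I * C) / (2 * Real.pi)) := by
        field_simp
      rw [e1]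
      exact r3.mono_left hodd
  · obtain ⟨hC, x, hx, h⟩ := h4 s hst
    refine ⟨hC, fun N hN => ?_, ?_⟩
    · rw [hst]
      exact double_nonneg s N hN
    · have h6 := (Pool.Agent.W460.AX.rat _ _ _ (by exact_mod_cast hx.ne') h).2.2.1
      rw [e0]
      exact h6.mono_left hodd
  · obtain ⟨hC, f, x, hx, hr, h⟩ := h5 hw hp
    refine ⟨hC, f, hr, ?_⟩
    have h6 := (Pool.Agent.W460.AX.rat _ _ _ (by exact_mod_cast hx) h).2.2.1
    rw [e0]
    exact h6.mono_left hodd

end Pool.Agent.Results.MP_b30479_gt.ArborescentOddComplexVolume
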